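import Pool.Agent.H264Z.Funtf

set_option autoImplicit false

namespace Pool.Agent.Results.MP_8b1f5a_an.AllLengths

/-- Every real or complex normed space `X` of finite dimension `n ≥ 1` has a finite unit norm tight
frame of every length `N ≥ n`: vectors `x i` and functionals `f i` with
`‖x i‖ = ‖f i‖ = f i (x i) = 1` and `∑ i, f i ⊗ x i = (N / n) Id`. -/
theorem result (𝕜 : Type*) [RCLike 𝕜] (X : Type*) [NormedAddCommGroup X] [NormedSpace 𝕜 X]
    [FiniteDimensional 𝕜 X] (n N : ℕ) (hn : Module.finrank 𝕜 X = n) (hn0 : 1 ≤ n) (hN : n ≤ N) :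
    ∃ (x : Fin N → X) (f : Fin N → X →L[𝕜] 𝕜),
      (∀ i, ‖x i‖ = 1 ∧ ‖f i‖ = 1 ∧ f i (x i) = 1) ∧
      ∀ y : X, ∑ i, f i y • x i = ((N : 𝕜) / (n : 𝕜)) • y :=
  Pool.Agent.H264Z.Funtf.main n N hn hn0 hN

end Pool.Agent.Results.MP_8b1f5a_an.AllLengths
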